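import Pool.Agent.Helper27.AK.Pois

/-!
# AK (MP_fb29e9_nt, AlmostEveryOval v7): concavity of the sums over the translates of the kernel
-/

open MeasureTheory Real Set Filter Topology Asymptotics

set_option autoImplicit false

namespace Pool.Agent.Helper27.AK

theorem w_deriv (e : ℝ) {y : ℝ} (hy : 0 < y) : HasDerivAt (w e) (exp (-(e * y)) * (1 / (2 * sqrt y) - e * sqrt y)) y := by
  have h1 := (hasDerivAt_sqrt hy.ne').mul (((hasDerivAt_id y).const_mul e).neg.exp)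
  refine h1.congr_deriv ?_
  simp only [id, Pi.neg_apply]
  ring

theorem w_deriv2 (e : ℝ) {y : ℝ} (hy : 0 < y) :
    HasDerivAt (fun y => exp (-(e * y)) * (1 / (2 * sqrt y) - e * sqrt y))
      (exp (-(e * y)) * (-(1 / (4 * (y * sqrt y))) - e / sqrt y + e ^ 2 * sqrt y)) y := by
  have hs : 0 < sqrt y := sqrt_pos.2 hy
  have h1 := hasDerivAt_sqrt hy.ne'
  have h2 : HasDerivAt (fun y : ℝ => 1 / (2 * sqrt y)) (-(1 / (4 * (y * sqrt y)))) y := by
    have h3 := (h1.const_mul 2).inv (by positivity)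
    have h4 : (fun y : ℝ => 1 / (2 * sqrt y)) = fun y => (2 * sqrt y)⁻¹ := by
      funext y
      rw [one_div]
    rw [h4]
    refine h3.congr_deriv ?_
    have hy2 : y = sqrt y * sqrt y := (mul_self_sqrt hy.le).symm
    field_simp
    rw [sq_sqrt hy.le]
    ring
  have h5 := ((((hasDerivAt_id y).const_mul e).neg.exp)).mul (h2.sub (h1.const_mul e))
  refine h5.congr_deriv ?_
  simp only [id, Pi.neg_apply, Pi.sub_apply]
  field_simp
  ring

/-- the constant of the first term -/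
noncomputable def bet (n : ℕ) : ℝ := if n = 0 then exp (-1) / 4 else 0

theorem w_conc {d : ℝ} (hd : 0 < d) (hd1 : d ≤ 1) (n : ℕ) :
    ConcaveOn ℝ (Icc (0 : ℝ) 1) fun x => w (d ^ 2) (x + n) + (bet n - d ^ 3 * exp (-(d ^ 2 * n / 2))) / 2 * x ^ 2 := by
  have hI : ∀ x ∈ interior (Icc (0 : ℝ) 1), 0 < x + n ∧ x ≤ 1 := by
    intro x hx
    rw [interior_Icc] at hx
    exact ⟨add_pos_of_pos_of_nonneg hx.1 (Nat.cast_nonneg n), hx.2.le⟩
  refine concaveOn_of_hasDerivWithinAt2_nonpos (convex_Icc 0 1)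
    (f' := fun x => exp (-(d ^ 2 * (x + n))) * (1 / (2 * sqrt (x + n)) - d ^ 2 * sqrt (x + n)) + (bet n - d ^ 3 * exp (-(d ^ 2 * n / 2))) * x)
    (f'' := fun x => exp (-(d ^ 2 * (x + n))) * (-(1 / (4 * ((x + n) * sqrt (x + n)))) - d ^ 2 / sqrt (x + n) + (d ^ 2) ^ 2 * sqrt (x + n)) +
      (bet n - d ^ 3 * exp (-(d ^ 2 * n / 2)))) ?_ ?_ ?_ ?_
  · exact (((w_cont (d ^ 2)).comp (by fun_prop)).add (by fun_prop)).continuousOn
  · intro x hx
    have h1 := (w_deriv (d ^ 2) (hI x hx).1).comp_add_const x (n : ℝ)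
    have h2 := (hasDerivAt_pow 2 x).const_mul ((bet n - d ^ 3 * exp (-(d ^ 2 * n / 2))) / 2)
    refine (h1.add h2).hasDerivWithinAt.congr_deriv ?_
    simp
    ring
  · intro x hx
    have h1 := (w_deriv2 (d ^ 2) (hI x hx).1).comp_add_const x (n : ℝ)
    have h2 := (hasDerivAt_id x).const_mul (bet n - d ^ 3 * exp (-(d ^ 2 * n / 2)))
    refine (h1.add h2).hasDerivWithinAt.congr_deriv ?_
    rw [mul_one]
  · intro x hx
    obtain ⟨hy, hx1⟩ := hI x hx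
    have hx0 : 0 < x := by
      rw [interior_Icc] at hx
      exact hx.1
    obtain ⟨y, hyd⟩ : ∃ y : ℝ, y = x + n := ⟨_, rfl⟩
    rw [← hyd] at hy ⊢
    have hs : 0 < sqrt y := sqrt_pos.2 hy
    have hE : 0 < exp (-(d ^ 2 * y)) := exp_pos _
    -- the positive part
    have hp : exp (-(d ^ 2 * y)) * ((d ^ 2) ^ 2 * sqrt y) ≤ d ^ 3 * exp (-(d ^ 2 * n / 2)) := by
      have h1 : d * sqrt y ≤ exp (d ^ 2 * y / 2) := by
        have h2 := add_one_le_exp (d ^ 2 * y / 2)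
        have h3 : (d * sqrt y) ^ 2 = d ^ 2 * y := by rw [mul_pow, sq_sqrt hy.le]
        nlinarith [sq_nonneg (d * sqrt y - 1)]
      calc exp (-(d ^ 2 * y)) * ((d ^ 2) ^ 2 * sqrt y) = d ^ 3 * (exp (-(d ^ 2 * y)) * (d * sqrt y)) := by ring
        _ ≤ d ^ 3 * (exp (-(d ^ 2 * y)) * exp (d ^ 2 * y / 2)) := by gcongr
        _ = d ^ 3 * exp (-(d ^ 2 * y / 2)) := by rw [← exp_add]; congr 2; ring
        _ ≤ d ^ 3 * exp (-(d ^ 2 * n / 2)) := by
          have h4 : (n : ℝ) ≤ y := by rw [hyd]; linarith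
          gcongr
    have hn1 : 0 ≤ exp (-(d ^ 2 * y)) * (d ^ 2 / sqrt y) := by positivity
    have hn2 : bet n ≤ exp (-(d ^ 2 * y)) * (1 / (4 * (y * sqrt y))) := by
      unfold bet
      split_ifs with h0
      · have hy1 : y ≤ 1 := by rw [hyd, h0]; simpa using hx1
        have hs1 : sqrt y ≤ 1 := sqrt_le_one.2 hy1
        have h5 : exp (-1) ≤ exp (-(d ^ 2 * y)) := by
          refine exp_le_exp.2 (neg_le_neg ?_)
          have : d ^ 2 ≤ 1 := pow_le_one₀ hd.le hd1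
          nlinarith
        have h6 : 1 / 4 ≤ 1 / (4 * (y * sqrt y)) := by
          refine one_div_le_one_div_of_le (by positivity) ?_
          have : y * sqrt y ≤ 1 := mul_le_one₀ hy1 hs.le hs1
          linarith
        calc exp (-1) / 4 = exp (-1) * (1 / 4) := by ring
          _ ≤ exp (-(d ^ 2 * y)) * (1 / (4 * (y * sqrt y))) := mul_le_mul h5 h6 (by norm_num) hE.le
      · positivity
    nlinarith

/-- the defect of concavity of one term -/
theorem w_def {d : ℝ} (hd : 0 < d) (hd1 : d ≤ 1) (n : ℕ) {x y a b : ℝ} (hx : x ∈ Icc (0 : ℝ) 1) (hy : y ∈ Icc (0 : ℝ) 1) (ha : 0 ≤ a) (hb : 0 ≤ b)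
    (hab : a + b = 1) :
    a * w (d ^ 2) (x + n) + b * w (d ^ 2) (y + n) + bet n / 2 * (a * b * (x - y) ^ 2) - d ^ 3 * exp (-(d ^ 2 * n / 2)) ≤
      w (d ^ 2) (a * x + b * y + n) := by
  have h1 := (w_conc hd hd1 n).2 hx hy ha hb hab
  simp only [smul_eq_mul] at h1
  have h2 : (a * x + b * y) ^ 2 = a * x ^ 2 + b * y ^ 2 - a * b * (x - y) ^ 2 := by
    obtain rfl : b = 1 - a := by linarith
    ring
  have h3 : 0 ≤ d ^ 3 * exp (-(d ^ 2 * n / 2)) := by positivity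
  have h4 : a * b * (x - y) ^ 2 ≤ 1 := by
    have h5 : a * b ≤ 1 := by nlinarith
    have h6 : (x - y) ^ 2 ≤ 1 := by
      rw [sq_le_one_iff_abs_le_one, abs_le]
      exact ⟨by linarith [hx.1, hy.2], by linarith [hx.2, hy.1]⟩
    exact mul_le_one₀ h5 (sq_nonneg _) h6
  have h7 : 0 ≤ a * b * (x - y) ^ 2 := by positivity
  rw [h2] at h1
  nlinarith

theorem w_nonneg (e y : ℝ) : 0 ≤ w e y := by
  unfold w
  positivity

theorem w_le {d : ℝ} (hd : 0 < d) {x : ℝ} (hx : 0 ≤ x) (n : ℕ) : w (d ^ 2) (x + n) ≤ 1 / d * exp (-(d ^ 2 * n / 2)) := by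
  have hy : 0 ≤ x + n := by positivity
  have h1 : d * sqrt (x + n) ≤ exp (d ^ 2 * (x + n) / 2) := by
    have h2 := add_one_le_exp (d ^ 2 * (x + n) / 2)
    have h3 : (d * sqrt (x + n)) ^ 2 = d ^ 2 * (x + n) := by rw [mul_pow, sq_sqrt hy]
    nlinarith [sq_nonneg (d * sqrt (x + n) - 1)]
  calc w (d ^ 2) (x + n) = 1 / d * (exp (-(d ^ 2 * (x + n))) * (d * sqrt (x + n))) := by
        unfold w
        field_simp
    _ ≤ 1 / d * (exp (-(d ^ 2 * (x + n))) * exp (d ^ 2 * (x + n) / 2)) := by gcongr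
    _ = 1 / d * exp (-(d ^ 2 * (x + n) / 2)) := by rw [← exp_add]; congr 2; ring
    _ ≤ 1 / d * exp (-(d ^ 2 * n / 2)) := by
      gcongr
      linarith

theorem exp_hasSum {d : ℝ} (hd : 0 < d) : HasSum (fun n : ℕ => exp (-(d ^ 2 * n / 2))) (1 - exp (-(d ^ 2 / 2)))⁻¹ := by
  have h0 : exp (-(d ^ 2 / 2)) < 1 := by
    rw [← exp_zero]
    refine exp_lt_exp.2 ?_
    have : 0 < d ^ 2 / 2 := by positivity
    linarith
  have h1 := hasSum_geometric_of_lt_one (exp_pos (-(d ^ 2 / 2))).le h0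
  have h2 : (fun n : ℕ => exp (-(d ^ 2 * n / 2))) = fun n : ℕ => exp (-(d ^ 2 / 2)) ^ n := by
    funext n
    rw [← exp_nat_mul]
    congr 1
    ring
  rw [h2]
  exact h1

theorem w_summable {d : ℝ} (hd : 0 < d) {x : ℝ} (hx : 0 ≤ x) : Summable fun n : ℕ => w (d ^ 2) (x + n) :=
  Summable.of_nonneg_of_le (fun _ => w_nonneg _ _) (fun n => w_le hd hx n) ((exp_hasSum hd).summable.mul_left _)

theorem exp_sum_le {d : ℝ} (hd : 0 < d) (hd1 : d ≤ 1) : d ^ 3 * (1 - exp (-(d ^ 2 / 2)))⁻¹ ≤ 3 * d := by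
  have h0 : 0 < d ^ 2 / 2 := by positivity
  have h1 : exp (-(d ^ 2 / 2)) ≤ (1 + d ^ 2 / 2)⁻¹ := by
    rw [exp_neg]
    exact inv_anti₀ (by positivity) (by linarith [add_one_le_exp (d ^ 2 / 2)])
  have h2 : d ^ 2 / 3 ≤ 1 - exp (-(d ^ 2 / 2)) := by
    have h3 : (1 + d ^ 2 / 2)⁻¹ ≤ 1 - d ^ 2 / 3 := by
      rw [inv_le_iff_one_le_mul₀ (by positivity)]
      have : d ^ 2 ≤ 1 := pow_le_one₀ hd.le hd1
      nlinarith [sq_nonneg d]
    linarith
  have h4 : (1 - exp (-(d ^ 2 / 2)))⁻¹ ≤ (d ^ 2 / 3)⁻¹ := inv_anti₀ (by positivity) h2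
  calc d ^ 3 * (1 - exp (-(d ^ 2 / 2)))⁻¹ ≤ d ^ 3 * (d ^ 2 / 3)⁻¹ := by gcongr
    _ = 3 * d := by field_simp

/-- the sum over the translates -/
noncomputable def SS (e x : ℝ) : ℝ := ∑' n : ℕ, w e (x + n)

theorem SS_def {d : ℝ} (hd : 0 < d) (hd1 : d ≤ 1) {x y a b : ℝ} (hx : x ∈ Icc (0 : ℝ) 1) (hy : y ∈ Icc (0 : ℝ) 1) (ha : 0 ≤ a) (hb : 0 ≤ b)
    (hab : a + b = 1) :
    exp (-1) / 8 * (a * b * (x - y) ^ 2) - 3 * d ≤ SS (d ^ 2) (a * x + b * y) - a * SS (d ^ 2) x - b * SS (d ^ 2) y := by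
  have hz : 0 ≤ a * x + b * y := add_nonneg (mul_nonneg ha hx.1) (mul_nonneg hb hy.1)
  have hbet : HasSum (fun n : ℕ => bet n / 2 * (a * b * (x - y) ^ 2)) (exp (-1) / 8 * (a * b * (x - y) ^ 2)) := by
    have h1 := hasSum_single (f := fun n : ℕ => bet n / 2 * (a * b * (x - y) ^ 2)) 0 (fun n hn => by simp [bet, hn])
    have h2 : bet 0 / 2 * (a * b * (x - y) ^ 2) = exp (-1) / 8 * (a * b * (x - y) ^ 2) := by
      simp only [bet, if_true]
      ring
    rwa [h2] at h1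
  have h3 := ((((w_summable hd hx.1).hasSum.mul_left a).add ((w_summable hd hy.1).hasSum.mul_left b)).add hbet).sub
    ((exp_hasSum hd).mul_left (d ^ 3))
  have h4 := hasSum_le (fun n => w_def hd hd1 n hx hy ha hb hab) h3 (w_summable hd hz).hasSum
  have h5 := exp_sum_le hd hd1
  unfold SS
  linarith

theorem SS_int (e : ℝ) {x : ℝ} (hx : x ∈ Icc (0 : ℝ) 1) : ∑' n : ℤ, (w e (x + n) : ℂ) = (SS e x : ℂ) := by
  unfold SS
  rw [Complex.ofReal_tsum]
  have h1 := Function.Injective.tsum_eq (g := fun n : ℕ => (n : ℤ)) Nat.cast_injective (f := fun n : ℤ => (w e (x + n) : ℂ)) (by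
    intro n hn
    rw [Function.mem_support] at hn
    rcases le_or_gt 0 n with h | h
    · exact ⟨n.toNat, Int.toNat_of_nonneg h⟩
    · exfalso
      refine hn ?_
      have h2 : (n : ℝ) ≤ -1 := by exact_mod_cast Int.le_sub_one_of_lt h
      rw [w_neg e (by linarith [hx.2]), Complex.ofReal_zero])
  rw [← h1]
  simp

end Pool.Agent.Helper27.AK
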