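import Mathlib

/-!
# AK (MP_fb29e9_nt, AlmostEveryOval v7): the Laplace transform of the square root at a complex point
-/

open MeasureTheory Real Set Filter Topology

set_option autoImplicit false

namespace Pool.Agent.Helper27.AK

/-- the second moment of the complex Gaussian -/
theorem gauss_two {r : ℂ} (hr : 0 < r.re) :
    ∫ s : ℝ in Ioi (0 : ℝ), ((2 * s ^ 2 : ℝ) : ℂ) * Complex.exp (-r * (s : ℂ) ^ 2) = (1 / r) * ((π / r) ^ (1 / 2 : ℂ) / 2) := by
  have hr0 : r ≠ 0 := fun h => by simp [h] at hr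
  have hi1 : IntegrableOn (fun s : ℝ => Complex.exp (-r * (s : ℂ) ^ 2)) (Ioi 0) := (integrable_cexp_neg_mul_sq hr).integrableOn
  have hi2 : IntegrableOn (fun s : ℝ => ((2 * s ^ 2 : ℝ) : ℂ) * Complex.exp (-r * (s : ℂ) ^ 2)) (Ioi 0) := by
    have h1 := ((integrable_rpow_mul_exp_neg_mul_sq hr (s := 2) (by norm_num)).const_mul 2).integrableOn (s := Ioi (0 : ℝ))
    refine Integrable.mono' h1 ?_ ?_
    · exact (Continuous.aestronglyMeasurable (by fun_prop))
    · refine ae_of_all _ fun s => le_of_eq ?_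
      rw [norm_mul, norm_cexp_neg_mul_sq, Complex.norm_real, norm_of_nonneg (by positivity : (0 : ℝ) ≤ 2 * s ^ 2), rpow_two]
      ring
  have hd : ∀ s ∈ Ici (0 : ℝ), HasDerivAt (fun s : ℝ => -((s : ℂ) * Complex.exp (-r * (s : ℂ) ^ 2)) / r)
      (((2 * s ^ 2 : ℝ) : ℂ) * Complex.exp (-r * (s : ℂ) ^ 2) - Complex.exp (-r * (s : ℂ) ^ 2) / r) s := by
    intro s _
    have h1 : HasDerivAt (fun z : ℂ => -(z * Complex.exp (-r * z ^ 2)) / r)
        (((2 * s ^ 2 : ℝ) : ℂ) * Complex.exp (-r * (s : ℂ) ^ 2) - Complex.exp (-r * (s : ℂ) ^ 2) / r) ((s : ℝ) : ℂ) := by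
      have h2 : HasDerivAt (fun z : ℂ => -r * z ^ 2) (-r * (2 * (s : ℂ))) (s : ℂ) := by
        have := (hasDerivAt_pow 2 (s : ℂ)).const_mul (-r)
        simpa using this
      have h3 := ((hasDerivAt_id (s : ℂ)).mul h2.cexp).neg.div_const r
      refine h3.congr_deriv ?_
      simp only [id]
      field_simp
      push_cast
      ring
    exact h1.comp_ofReal
  have ht : Tendsto (fun s : ℝ => -((s : ℂ) * Complex.exp (-r * (s : ℂ) ^ 2)) / r) atTop (𝓝 0) := by
    rw [tendsto_zero_iff_norm_tendsto_zero]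
    have h1 : Tendsto (fun s : ℝ => s * rexp (-r.re * s ^ 2)) atTop (𝓝 0) := by
      have h3 : Tendsto (fun s : ℝ => rexp (-(1 / 2) * s)) atTop (𝓝 0) := by
        refine tendsto_exp_atBot.comp ?_
        exact tendsto_id.const_mul_atTop_of_neg (by norm_num)
      have h4 := (rpow_mul_exp_neg_mul_sq_isLittleO_exp_neg hr 1).trans_tendsto h3
      simpa using h4
    have h5 := h1.div_const ‖r‖
    rw [zero_div] at h5
    refine h5.congr' ?_
    filter_upwards [eventually_ge_atTop 0] with s hs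
    rw [norm_div, norm_neg, norm_mul, norm_cexp_neg_mul_sq, Complex.norm_real, norm_of_nonneg hs]
  have h1 := integral_Ioi_of_hasDerivAt_of_tendsto' hd (hi2.sub (hi1.div_const r)) ht
  rw [integral_sub hi2 (hi1.div_const r)] at h1
  simp only [Complex.ofReal_zero, zero_mul, neg_zero, zero_div, sub_zero] at h1
  rw [sub_eq_zero] at h1
  rw [h1, integral_div, integral_gaussian_complex_Ioi hr]
  ring

/-- the Laplace transform of the square root -/
theorem laplace_sqrt {r : ℂ} (hr : 0 < r.re) :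
    ∫ y : ℝ in Ioi (0 : ℝ), ((sqrt y : ℝ) : ℂ) * Complex.exp (-r * (y : ℂ)) = (1 / r) * ((π / r) ^ (1 / 2 : ℂ) / 2) := by
  rw [← gauss_two hr, ← integral_comp_rpow_Ioi_of_pos (p := 2) (by norm_num)]
  refine setIntegral_congr_fun measurableSet_Ioi fun s hs => ?_
  have hs0 : 0 < s := hs
  simp only [rpow_two, Complex.real_smul]
  rw [sqrt_sq hs0.le, show ((2 : ℝ) - 1) = 1 by norm_num, rpow_one]
  push_cast
  ring

end Pool.Agent.Helper27.AK
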