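import Pool.Agent.Helper27.AK.Conv
import Pool.Agent.Helper34.EX.Riem2

/-!
# AK (MP_fb29e9_nt, AlmostEveryOval v7): the wave is strongly concave on `[0, 1]`
-/

open MeasureTheory Real Set Filter Topology Asymptotics

set_option autoImplicit false

namespace Pool.Agent.Helper27.AK

open Pool.Agent.Helper93.EX (fI fI_cont34 fI_int34 fI_abs34)

/-- the defect of the character -/
noncomputable def ed (x y a b : ℝ) (n : ℤ) : ℂ :=
  fourier n ((a * x + b * y : ℝ) : UnitAddCircle) - a * fourier n (x : UnitAddCircle) - b * fourier n (y : UnitAddCircle)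

theorem fourier_norm (n : ℤ) (x : ℝ) : ‖(fourier n (x : UnitAddCircle) : ℂ)‖ = 1 := by
  rw [fourier_coe_apply, show 2 * (π : ℂ) * Complex.I * n * x / ((1 : ℝ) : ℂ) = ((2 * π * n * x : ℝ) : ℂ) * Complex.I by push_cast; ring,
    Complex.norm_exp_ofReal_mul_I]

theorem ed_zero {x y a b : ℝ} (hab : a + b = 1) : ed x y a b 0 = 0 := by
  unfold ed
  simp only [fourier_zero, mul_one]
  have : ((a : ℂ) + b) = 1 := by exact_mod_cast hab
  linear_combination -this

theorem ed_norm {x y a b : ℝ} (ha : 0 ≤ a) (hb : 0 ≤ b) (hab : a + b = 1) (n : ℤ) : ‖ed x y a b n‖ ≤ 2 := by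
  unfold ed
  refine (norm_sub_le _ _).trans ?_
  have h1 := norm_sub_le (fourier n ((a * x + b * y : ℝ) : UnitAddCircle) : ℂ) (a * fourier n (x : UnitAddCircle))
  rw [norm_mul, Complex.norm_real, norm_of_nonneg ha, fourier_norm, fourier_norm] at h1
  rw [norm_mul, Complex.norm_real, norm_of_nonneg hb, fourier_norm]
  linarith

theorem poisson_ed {d : ℝ} (hd : 0 < d) {x y a b : ℝ} (hx : x ∈ Icc (0 : ℝ) 1) (hy : y ∈ Icc (0 : ℝ) 1) (ha : 0 ≤ a) (hb : 0 ≤ b)
    (hab : a + b = 1) :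
    ((SS (d ^ 2) (a * x + b * y) - a * SS (d ^ 2) x - b * SS (d ^ 2) y : ℝ) : ℂ) = ∑' n : ℤ, co (rr (d ^ 2) n) * ed x y a b n := by
  have hz : a * x + b * y ∈ Icc (0 : ℝ) 1 := (convex_Icc (0 : ℝ) 1) hx hy ha hb hab
  have he : 0 < d ^ 2 := by positivity
  have hs : ∀ t : ℝ, Summable fun n : ℤ => co (rr (d ^ 2) n) * fourier n (t : UnitAddCircle) := by
    intro t
    refine Summable.of_norm ?_
    simp_rw [norm_mul, fourier_norm, mul_one]
    exact (co_summable (d ^ 2)).norm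
  push_cast
  rw [← SS_int (d ^ 2) hz, ← SS_int (d ^ 2) hx, ← SS_int (d ^ 2) hy, poisson he, poisson he, poisson he, ← tsum_mul_left, ← tsum_mul_left,
    ← (hs _).tsum_sub ((hs _).mul_left _), ← ((hs _).sub ((hs _).mul_left _)).tsum_sub ((hs _).mul_left _)]
  refine tsum_congr fun n => ?_
  unfold ed
  ring

theorem co_cont {n : ℤ} (hn : n ≠ 0) : ContinuousAt (fun e : ℝ => co (rr e n)) 0 := by
  have h0 : rr 0 n ≠ 0 := by
    intro h
    have := congrArg Complex.im h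
    rw [rr_im] at this
    simp [hn, pi_ne_zero] at this
  have h1 : ContinuousAt (fun e : ℝ => rr e n) 0 := by
    unfold rr
    fun_prop
  unfold co
  refine ContinuousAt.mul (continuousAt_const.div h1 h0) (ContinuousAt.div_const ?_ 2)
  refine ContinuousAt.cpow (continuousAt_const.div h1 h0) continuousAt_const ?_
  rw [Complex.mem_slitPlane_iff]
  right
  have h2 : (π / rr 0 n : ℂ) = ((1 / (2 * n) : ℝ) : ℂ) * -Complex.I := by
    unfold rr
    have hn' : (n : ℂ) ≠ 0 := by exact_mod_cast hn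
    have hpi : (π : ℂ) ≠ 0 := by exact_mod_cast pi_ne_zero
    push_cast
    rw [zero_add]
    field_simp
    rw [Complex.I_sq]
    ring
  rw [h2]
  simp [hn]

theorem co_lim {x y a b : ℝ} (ha : 0 ≤ a) (hb : 0 ≤ b) (hab : a + b = 1) :
    Tendsto (fun d : ℝ => ∑' n : ℤ, co (rr (d ^ 2) n) * ed x y a b n) (𝓝[>] 0) (𝓝 (∑' n : ℤ, co (rr 0 n) * ed x y a b n)) := by
  refine tendsto_tsum_of_dominated_convergence (bound := fun n : ℤ => |(n : ℝ)| ^ (-(3 / 2) : ℝ) * 2) (bd_summable.mul_right 2) ?_ ?_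
  · intro n
    rcases eq_or_ne n 0 with rfl | hn
    · simp only [ed_zero hab, mul_zero]
      exact tendsto_const_nhds
    · refine Tendsto.mul_const _ ?_
      have h1 : Tendsto (fun d : ℝ => d ^ 2) (𝓝[>] 0) (𝓝 0) := by
        have : ContinuousAt (fun d : ℝ => d ^ 2) 0 := by fun_prop
        have h2 := this.tendsto
        simp only [ne_eq, OfNat.ofNat_ne_zero, not_false_eq_true, zero_pow] at h2
        exact h2.mono_left nhdsWithin_le_nhds
      exact (co_cont hn).tendsto.comp h1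
  · refine Eventually.of_forall fun d n => ?_
    rcases eq_or_ne n 0 with rfl | hn
    · rw [ed_zero hab, mul_zero, norm_zero]
      positivity
    · rw [norm_mul]
      exact mul_le_mul (co_le _ hn) (ed_norm ha hb hab n) (norm_nonneg _) (by positivity)

/-- the constant phases -/
theorem half_pow {t : ℝ} (ht : 0 < t) : ((t : ℂ) * -Complex.I) ^ (1 / 2 : ℂ) = (sqrt t : ℂ) * Complex.exp (-(π / 4) * Complex.I) := by
  have h0 : ((t : ℂ) * -Complex.I) ≠ 0 := mul_ne_zero (by exact_mod_cast ht.ne') (by simp)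
  rw [Complex.cpow_def_of_ne_zero h0, Complex.log_ofReal_mul ht (by simp), Complex.log_neg_I, sqrt_eq_rpow, rpow_def_of_pos ht, Complex.ofReal_exp,
    ← Complex.exp_add]
  congr 1
  push_cast
  ring

theorem half_pow' {t : ℝ} (ht : 0 < t) : ((t : ℂ) * Complex.I) ^ (1 / 2 : ℂ) = (sqrt t : ℂ) * Complex.exp ((π / 4) * Complex.I) := by
  have h0 : ((t : ℂ) * Complex.I) ≠ 0 := mul_ne_zero (by exact_mod_cast ht.ne') (by simp)
  rw [Complex.cpow_def_of_ne_zero h0, Complex.log_ofReal_mul ht (by simp), Complex.log_I, sqrt_eq_rpow, rpow_def_of_pos ht, Complex.ofReal_exp,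
    ← Complex.exp_add]
  congr 1
  push_cast
  ring

theorem amp_eq {m : ℝ} (hm : 0 < m) : 1 / (2 * π * m) * sqrt (1 / (2 * m)) / 2 = 1 / (4 * sqrt 2 * π) * m ^ (-(3 / 2) : ℝ) := by
  have h1 : sqrt (1 / (2 * m)) = 1 / (sqrt 2 * sqrt m) := by
    rw [sqrt_div zero_le_one, sqrt_one, sqrt_mul (by norm_num)]
  have h2 : m ^ (-(3 / 2) : ℝ) = 1 / (m * sqrt m) := by
    rw [show (-(3 / 2) : ℝ) = -(1 + 1 / 2) by norm_num, rpow_neg hm.le, rpow_add hm, rpow_one, ← sqrt_eq_rpow, one_div]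
  rw [h1, h2]
  have hs : 0 < sqrt m := sqrt_pos.2 hm
  field_simp
  ring

theorem co_pos (m : ℕ) : co (rr 0 ((m : ℤ) + 1)) =
    ((1 / (4 * sqrt 2 * π) * ((m + 1 : ℕ) : ℝ) ^ (-(3 / 2) : ℝ) : ℝ) : ℂ) * Complex.exp (-(3 * π / 4) * Complex.I) := by
  have hm : (0 : ℝ) < ((m + 1 : ℕ) : ℝ) := by positivity
  rw [← amp_eq hm]
  have hmc : ((m : ℂ) + 1) ≠ 0 := by exact_mod_cast (Nat.succ_ne_zero m)
  have hpi : (π : ℂ) ≠ 0 := by exact_mod_cast pi_ne_zero
  have h2 : (π / rr 0 ((m : ℤ) + 1) : ℂ) = ((1 / (2 * ((m + 1 : ℕ) : ℝ)) : ℝ) : ℂ) * -Complex.I := by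
    unfold rr
    push_cast
    rw [zero_add]
    field_simp
    rw [Complex.I_sq]
    ring
  have h3 : (1 / rr 0 ((m : ℤ) + 1) : ℂ) = ((1 / (2 * π * ((m + 1 : ℕ) : ℝ)) : ℝ) : ℂ) * -Complex.I := by
    unfold rr
    push_cast
    rw [zero_add]
    field_simp
    rw [Complex.I_sq]
    ring
  have h4 : -Complex.I = Complex.exp (-(π / 2) * Complex.I) := by
    rw [show (-(π / 2) * Complex.I : ℂ) = -(π / 2 * Complex.I) by ring, Complex.exp_neg, Complex.exp_pi_div_two_mul_I, Complex.inv_I]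
  unfold co
  rw [h2, half_pow (by positivity), h3, h4]
  have h5 : Complex.exp (-(3 * π / 4) * Complex.I) = Complex.exp (-(π / 2) * Complex.I) * Complex.exp (-(π / 4) * Complex.I) := by
    rw [← Complex.exp_add]
    congr 1
    ring
  rw [h5]
  push_cast
  ring

theorem co_neg (m : ℕ) : co (rr 0 (-((m : ℤ) + 1))) =
    ((1 / (4 * sqrt 2 * π) * ((m + 1 : ℕ) : ℝ) ^ (-(3 / 2) : ℝ) : ℝ) : ℂ) * Complex.exp ((3 * π / 4) * Complex.I) := by
  have hm : (0 : ℝ) < ((m + 1 : ℕ) : ℝ) := by positivity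
  rw [← amp_eq hm]
  have hmc : ((m : ℂ) + 1) ≠ 0 := by exact_mod_cast (Nat.succ_ne_zero m)
  have hmc' : (-(m : ℂ) - 1) ≠ 0 := fun h => hmc (by linear_combination -h)
  have hpi : (π : ℂ) ≠ 0 := by exact_mod_cast pi_ne_zero
  have h0 : rr 0 (-((m : ℤ) + 1)) = -(2 * π * (m + 1) * Complex.I) := by
    unfold rr
    push_cast
    ring
  have h2 : (π / rr 0 (-((m : ℤ) + 1)) : ℂ) = ((1 / (2 * ((m + 1 : ℕ) : ℝ)) : ℝ) : ℂ) * Complex.I := by
    rw [h0]
    push_cast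
    field_simp
    rw [Complex.I_sq]
  have h3 : (1 / rr 0 (-((m : ℤ) + 1)) : ℂ) = ((1 / (2 * π * ((m + 1 : ℕ) : ℝ)) : ℝ) : ℂ) * Complex.I := by
    rw [h0]
    push_cast
    field_simp
    rw [Complex.I_sq]
  unfold co
  rw [h2, half_pow' (by positivity), h3]
  have h5 : Complex.exp ((3 * π / 4) * Complex.I) = Complex.I * Complex.exp ((π / 4) * Complex.I) := by
    have h6 : Complex.exp ((3 * π / 4) * Complex.I) = Complex.exp ((π / 2) * Complex.I) * Complex.exp ((π / 4) * Complex.I) := by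
      rw [← Complex.exp_add]
      congr 1
      ring
    rw [h6, Complex.exp_pi_div_two_mul_I]
  rw [h5]
  push_cast
  ring

theorem co_zero : co (rr 0 0) = 0 := by
  simp [co, rr]

theorem real_summable (x : ℝ) : Summable fun j : ℕ => ((j + 1 : ℕ) : ℝ) ^ (-(3 / 2) : ℝ) * cos (2 * π * (((j + 1 : ℕ) : ℝ) * x) - 3 * π / 4) := by
  have h1 : Summable fun j : ℕ => ((j + 1 : ℕ) : ℝ) ^ (-(3 / 2) : ℝ) :=
    (summable_nat_add_iff 1).2 (Real.summable_nat_rpow.2 (by norm_num))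
  refine Summable.of_norm_bounded h1 fun j => ?_
  rw [norm_mul, norm_of_nonneg (by positivity)]
  exact mul_le_of_le_one_right (by positivity) (abs_cos_le_one _)

theorem fI_sum (x : ℝ) : ∑' n : ℤ, co (rr 0 n) * fourier n (x : UnitAddCircle) = ((1 / (2 * sqrt 2) * fI x : ℝ) : ℂ) := by
  have hs : Summable fun n : ℤ => co (rr 0 n) * fourier n (x : UnitAddCircle) := by
    refine Summable.of_norm ?_
    simp_rw [norm_mul, fourier_norm, mul_one]
    exact (co_summable 0).norm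
  have h1 : Summable fun m : ℕ => co (rr 0 ((m : ℤ) + 1)) * fourier ((m : ℤ) + 1) (x : UnitAddCircle) :=
    hs.comp_injective (i := fun m : ℕ => (m : ℤ) + 1) (fun m n h => by simpa using h)
  have h2 : Summable fun m : ℕ => co (rr 0 (-((m : ℤ) + 1))) * fourier (-((m : ℤ) + 1)) (x : UnitAddCircle) :=
    hs.comp_injective (i := fun m : ℕ => -((m : ℤ) + 1)) (fun m n h => by simpa using h)
  have h3 := HasSum.of_add_one_of_neg_add_one (f := fun n : ℤ => co (rr 0 n) * fourier n (x : UnitAddCircle)) h1.hasSum h2.hasSum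
  rw [h3.tsum_eq, co_zero, zero_mul, add_zero, ← h1.tsum_add h2]
  have h4 : ∀ m : ℕ, co (rr 0 ((m : ℤ) + 1)) * fourier ((m : ℤ) + 1) (x : UnitAddCircle) +
      co (rr 0 (-((m : ℤ) + 1))) * fourier (-((m : ℤ) + 1)) (x : UnitAddCircle) =
      ((1 / (2 * sqrt 2) * (1 / π * (((m + 1 : ℕ) : ℝ) ^ (-(3 / 2) : ℝ) * cos (2 * π * (((m + 1 : ℕ) : ℝ) * x) - 3 * π / 4))) : ℝ) : ℂ) := by
    intro m
    rw [co_pos, co_neg, fourier_coe_apply, fourier_coe_apply]
    have h5 : Complex.exp (-(3 * π / 4) * Complex.I + 2 * π * Complex.I * (((m : ℤ) + 1 : ℤ) : ℂ) * x / ((1 : ℝ) : ℂ)) +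
        Complex.exp ((3 * π / 4) * Complex.I + 2 * π * Complex.I * ((-((m : ℤ) + 1) : ℤ) : ℂ) * x / ((1 : ℝ) : ℂ)) =
        2 * ((cos (2 * π * (((m + 1 : ℕ) : ℝ) * x) - 3 * π / 4) : ℝ) : ℂ) := by
      rw [Complex.ofReal_cos, Complex.cos, mul_div_cancel₀ _ (two_ne_zero)]
      congr 2
      · push_cast
        ring
      · push_cast
        ring
    rw [Complex.exp_add, Complex.exp_add] at h5
    have h6 : ((1 / (2 * sqrt 2) * (1 / π * (((m + 1 : ℕ) : ℝ) ^ (-(3 / 2) : ℝ) * cos (2 * π * (((m + 1 : ℕ) : ℝ) * x) - 3 * π / 4))) : ℝ) : ℂ) =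
        ((1 / (4 * sqrt 2 * π) * ((m + 1 : ℕ) : ℝ) ^ (-(3 / 2) : ℝ) : ℝ) : ℂ) *
          (2 * ((cos (2 * π * (((m + 1 : ℕ) : ℝ) * x) - 3 * π / 4) : ℝ) : ℂ)) := by
      push_cast
      ring
    rw [h6]
    linear_combination ((1 / (4 * sqrt 2 * π) * ((m + 1 : ℕ) : ℝ) ^ (-(3 / 2) : ℝ) : ℝ) : ℂ) * h5
  simp_rw [h4]
  rw [← Complex.ofReal_tsum, tsum_mul_left, tsum_mul_left]
  rfl

/-- the wave is strongly concave on `[0, 1]` -/
theorem fI_strong {x y a b : ℝ} (hx : x ∈ Icc (0 : ℝ) 1) (hy : y ∈ Icc (0 : ℝ) 1) (ha : 0 ≤ a) (hb : 0 ≤ b) (hab : a + b = 1) :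
    a * fI x + b * fI y + exp (-1) / 8 * (a * b * (x - y) ^ 2) ≤ fI (a * x + b * y) := by
  have hs : ∀ t : ℝ, Summable fun n : ℤ => co (rr 0 n) * fourier n (t : UnitAddCircle) := by
    intro t
    refine Summable.of_norm ?_
    simp_rw [norm_mul, fourier_norm, mul_one]
    exact (co_summable 0).norm
  have h1 : ∑' n : ℤ, co (rr 0 n) * ed x y a b n = ((1 / (2 * sqrt 2) * (fI (a * x + b * y) - a * fI x - b * fI y) : ℝ) : ℂ) := by
    have h2 : ((1 / (2 * sqrt 2) * (fI (a * x + b * y) - a * fI x - b * fI y) : ℝ) : ℂ) =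
        ((1 / (2 * sqrt 2) * fI (a * x + b * y) : ℝ) : ℂ) - a * ((1 / (2 * sqrt 2) * fI x : ℝ) : ℂ) - b * ((1 / (2 * sqrt 2) * fI y : ℝ) : ℂ) := by
      push_cast
      ring
    rw [h2, ← fI_sum, ← fI_sum, ← fI_sum, ← tsum_mul_left, ← tsum_mul_left,
      ← (hs _).tsum_sub ((hs _).mul_left _), ← ((hs _).sub ((hs _).mul_left _)).tsum_sub ((hs _).mul_left _)]
    refine tsum_congr fun n => ?_
    unfold ed
    ring
  have h3 := co_lim (x := x) (y := y) ha hb hab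
  rw [h1] at h3
  have h4 : Tendsto (fun d : ℝ => SS (d ^ 2) (a * x + b * y) - a * SS (d ^ 2) x - b * SS (d ^ 2) y) (𝓝[>] 0)
      (𝓝 (1 / (2 * sqrt 2) * (fI (a * x + b * y) - a * fI x - b * fI y))) := by
    have h5 := (Complex.continuous_re.tendsto _).comp h3
    rw [Complex.ofReal_re] at h5
    refine h5.congr' ?_
    filter_upwards [self_mem_nhdsWithin] with d hd
    have h6 := poisson_ed hd hx hy ha hb hab
    simp only [Function.comp]
    rw [← h6, Complex.ofReal_re]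
  have h7 : Tendsto (fun d : ℝ => exp (-1) / 8 * (a * b * (x - y) ^ 2) - 3 * d) (𝓝[>] 0) (𝓝 (exp (-1) / 8 * (a * b * (x - y) ^ 2) - 3 * 0)) := by
    have : ContinuousAt (fun d : ℝ => exp (-1) / 8 * (a * b * (x - y) ^ 2) - 3 * d) 0 := by fun_prop
    exact this.tendsto.mono_left nhdsWithin_le_nhds
  have h8 : exp (-1) / 8 * (a * b * (x - y) ^ 2) - 3 * 0 ≤ 1 / (2 * sqrt 2) * (fI (a * x + b * y) - a * fI x - b * fI y) := by
    refine le_of_tendsto_of_tendsto h7 h4 ?_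
    filter_upwards [Ioc_mem_nhdsGT (zero_lt_one' ℝ)] with d hd
    exact SS_def hd.1 hd.2 hx hy ha hb hab
  rw [mul_zero, sub_zero] at h8
  have h9 : 0 ≤ exp (-1) / 8 * (a * b * (x - y) ^ 2) := by positivity
  have h10 : (1 : ℝ) ≤ sqrt 2 := one_le_sqrt.2 (by norm_num)
  have h11 : 2 * sqrt 2 * (exp (-1) / 8 * (a * b * (x - y) ^ 2)) ≤ fI (a * x + b * y) - a * fI x - b * fI y := by
    have := mul_le_mul_of_nonneg_left h8 (by positivity : 0 ≤ 2 * sqrt 2)
    rwa [← mul_assoc (2 * sqrt 2) (1 / (2 * sqrt 2)), mul_one_div_cancel (by positivity), one_mul] at this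
  nlinarith

end Pool.Agent.Helper27.AK
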