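import Pool.Agent.Helper27.AK.Gam

/-!
# AK (MP_fb29e9_nt, AlmostEveryOval v7): Poisson summation for `sqrt y * exp (- e y)`
-/

open MeasureTheory Real Set Filter Topology Asymptotics

set_option autoImplicit false

namespace Pool.Agent.Helper27.AK

/-- the kernel -/
noncomputable def w (e y : ℝ) : ℝ := sqrt y * exp (-(e * y))

theorem w_cont (e : ℝ) : Continuous (w e) := by
  unfold w
  fun_prop

theorem w_neg (e : ℝ) {y : ℝ} (hy : y ≤ 0) : w e y = 0 := by
  unfold w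
  rw [sqrt_eq_zero_of_nonpos hy, zero_mul]

/-- the point `e + 2 π i n` -/
noncomputable def rr (e : ℝ) (n : ℤ) : ℂ := e + 2 * π * n * Complex.I

theorem rr_re (e : ℝ) (n : ℤ) : (rr e n).re = e := by
  simp [rr]

theorem rr_im (e : ℝ) (n : ℤ) : (rr e n).im = 2 * π * n := by
  simp [rr]

/-- the Fourier coefficient -/
noncomputable def co (r : ℂ) : ℂ := (1 / r) * ((π / r) ^ (1 / 2 : ℂ) / 2)

theorem w_fourier {e : ℝ} (he : 0 < e) (n : ℤ) : FourierTransform.fourier (fun y : ℝ => (w e y : ℂ)) (n : ℝ) = co (rr e n) := by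
  rw [fourier_real_eq_integral_exp_smul]
  have hr : 0 < (rr e n).re := by rw [rr_re]; exact he
  unfold co
  rw [← laplace_sqrt hr]
  rw [← setIntegral_eq_integral_of_forall_compl_eq_zero (s := Ioi (0 : ℝ))]
  · refine setIntegral_congr_fun measurableSet_Ioi fun y _ => ?_
    simp only [smul_eq_mul, w, Complex.ofReal_mul, Complex.ofReal_exp]
    rw [mul_left_comm, ← Complex.exp_add]
    congr 2
    simp only [rr]
    push_cast
    ring
  · intro y hy
    rw [w_neg e (not_lt.1 hy)]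
    simp

theorem w_decay {e : ℝ} (he : 0 < e) : (fun y : ℝ => (w e y : ℂ)) =O[cocompact ℝ] (fun y : ℝ => |y| ^ (-(2 : ℝ))) := by
  rw [cocompact_eq_atBot_atTop, isBigO_sup]
  constructor
  · refine IsBigO.of_bound 1 ?_
    filter_upwards [eventually_le_atBot 0] with y hy
    rw [w_neg e hy]
    simp only [Complex.ofReal_zero, norm_zero, one_mul]
    positivity
  · have h1 : (fun y : ℝ => (w e y : ℂ)) =O[atTop] fun y : ℝ => sqrt y * exp (-(e * y)) := by
      refine IsBigO.of_bound 1 (Eventually.of_forall fun y => ?_)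
      rw [one_mul, Complex.norm_real, w]
    refine h1.trans ?_
    have h2 : (fun y : ℝ => exp (-e * y)) =o[atTop] fun y : ℝ => y ^ (-3 : ℝ) := isLittleO_exp_neg_mul_rpow_atTop he (-3)
    have h3 : (fun y : ℝ => sqrt y * exp (-(e * y))) =O[atTop] fun y : ℝ => y ^ (1 / 2 : ℝ) * y ^ (-3 : ℝ) := by
      refine IsBigO.mul ?_ ?_
      · refine IsBigO.of_bound 1 ?_
        filter_upwards with y
        rw [sqrt_eq_rpow, one_mul]
      · simpa [neg_mul] using h2.isBigO
    refine h3.trans (IsBigO.of_bound 1 ?_)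
    filter_upwards [eventually_ge_atTop 1] with y hy
    have hy0 : 0 < y := by linarith
    rw [← rpow_add hy0, one_mul, norm_of_nonneg (by positivity), norm_of_nonneg (by positivity), abs_of_pos hy0]
    exact rpow_le_rpow_of_exponent_le hy (by norm_num)

theorem co_norm (r : ℂ) : ‖co r‖ = sqrt π / 2 * ‖r‖ ^ (-(3 / 2) : ℝ) := by
  rcases eq_or_ne r 0 with rfl | hr
  · simp only [co, div_zero, zero_mul, norm_zero]
    rw [zero_rpow (by norm_num), mul_zero]
  have h0 : 0 < ‖r‖ := norm_pos_iff.2 hr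
  unfold co
  rw [norm_mul, norm_div, norm_div, norm_one, show (1 / 2 : ℂ) = ((1 / 2 : ℝ) : ℂ) by norm_num, Complex.norm_cpow_real, norm_div, Complex.norm_real,
    norm_of_nonneg pi_pos.le, div_rpow pi_pos.le h0.le, ← sqrt_eq_rpow, show ‖(2 : ℂ)‖ = 2 by norm_num,
    show (-(3 / 2) : ℝ) = -1 + -(1 / 2) by norm_num, rpow_add h0, rpow_neg h0.le, rpow_neg h0.le, rpow_one]
  ring

theorem rr_norm_ge (e : ℝ) (n : ℤ) : 2 * π * |(n : ℝ)| ≤ ‖rr e n‖ := by
  have h1 := Complex.abs_im_le_norm (rr e n)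
  rw [rr_im, abs_mul, abs_of_pos (by positivity : (0 : ℝ) < 2 * π)] at h1
  exact h1

theorem co_le (e : ℝ) {n : ℤ} (hn : n ≠ 0) : ‖co (rr e n)‖ ≤ |(n : ℝ)| ^ (-(3 / 2) : ℝ) := by
  rw [co_norm]
  have hn0 : (0 : ℝ) < |(n : ℝ)| := abs_pos.2 (by exact_mod_cast hn)
  have h1 : ‖rr e n‖ ^ (-(3 / 2) : ℝ) ≤ (2 * π * |(n : ℝ)|) ^ (-(3 / 2) : ℝ) :=
    rpow_le_rpow_of_nonpos (by positivity) (rr_norm_ge e n) (by norm_num)
  have h2 : (2 * π * |(n : ℝ)|) ^ (-(3 / 2) : ℝ) = (2 * π) ^ (-(3 / 2) : ℝ) * |(n : ℝ)| ^ (-(3 / 2) : ℝ) :=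
    mul_rpow (by positivity) hn0.le
  have h3 : (2 * π) ^ (-(3 / 2) : ℝ) ≤ 1 := rpow_le_one_of_one_le_of_nonpos (by linarith [pi_gt_three]) (by norm_num)
  have h4 : sqrt π / 2 ≤ 1 := by
    have : sqrt π ≤ sqrt (2 ^ 2) := sqrt_le_sqrt (by linarith [pi_le_four])
    rw [sqrt_sq (by norm_num)] at this
    linarith
  calc sqrt π / 2 * ‖rr e n‖ ^ (-(3 / 2) : ℝ) ≤ 1 * (1 * |(n : ℝ)| ^ (-(3 / 2) : ℝ)) := by
        refine mul_le_mul h4 ?_ (by positivity) zero_le_one
        rw [h2] at h1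
        exact h1.trans (mul_le_mul_of_nonneg_right h3 (by positivity))
    _ = |(n : ℝ)| ^ (-(3 / 2) : ℝ) := by ring

theorem bd_summable : Summable fun n : ℤ => |(n : ℝ)| ^ (-(3 / 2) : ℝ) := Real.summable_abs_int_rpow (by norm_num)

theorem co_summable (e : ℝ) : Summable fun n : ℤ => co (rr e n) := by
  refine Summable.of_norm_bounded_eventually (g := fun n : ℤ => |(n : ℝ)| ^ (-(3 / 2) : ℝ)) bd_summable ?_
  have : {n : ℤ | ¬ ‖co (rr e n)‖ ≤ |(n : ℝ)| ^ (-(3 / 2) : ℝ)} ⊆ {0} := by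
    intro n hn
    by_contra h
    exact hn (co_le e h)
  exact (finite_singleton 0).subset this

/-- Poisson summation -/
theorem poisson {e : ℝ} (he : 0 < e) (x : ℝ) :
    ∑' n : ℤ, (w e (x + n) : ℂ) = ∑' n : ℤ, co (rr e n) * fourier n (x : UnitAddCircle) := by
  have hs : Summable fun n : ℤ => FourierTransform.fourier (fun y : ℝ => (w e y : ℂ)) (n : ℝ) := by
    simp_rw [w_fourier he]
    exact co_summable e
  have h := Real.tsum_eq_tsum_fourier_of_rpow_decay_of_summable (f := fun y : ℝ => (w e y : ℂ))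
    (Complex.continuous_ofReal.comp (w_cont e)) one_lt_two (w_decay he) hs x
  simp_rw [w_fourier he] at h
  exact h

end Pool.Agent.Helper27.AK
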