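import Mathlib

/-!
# AK (MP_fb29e9_nt, AlmostEveryOval v7): a concave function with mean zero has more negative extremes

If `f` is concave on `[0, 1]` with mean zero then the integral of `sinh (u f)` is at most zero for `u ≥ 0`.
-/

open MeasureTheory Real Set Filter Topology

set_option autoImplicit false

namespace Pool.Agent.Helper27.AK

theorem conc2 {f : ℝ → ℝ} {s : Set ℝ} (hc : ConcaveOn ℝ s f) {x y a b : ℝ} (hx : x ∈ s) (hy : y ∈ s) (ha : 0 ≤ a) (hb : 0 ≤ b) (hab : a + b = 1) :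
    a * f x + b * f y ≤ f (a * x + b * y) := hc.2 hx hy ha hb hab

theorem conv2 {f : ℝ → ℝ} {s : Set ℝ} (hc : ConvexOn ℝ s f) {x y a b : ℝ} (hx : x ∈ s) (hy : y ∈ s) (ha : 0 ≤ a) (hb : 0 ≤ b) (hab : a + b = 1) :
    f (a * x + b * y) ≤ a * f x + b * f y := hc.2 hx hy ha hb hab

theorem sum_parts {P d : ℕ → ℝ} (hP : 0 ≤ P 0) : ∀ k : ℕ, (∀ i ≤ k, 0 < d i) → (∀ i, i + 1 ≤ k → d (i + 1) ≤ d i) → (∀ i ≤ k, 0 ≤ P i) →
    ∑ i ∈ Finset.range (k + 1), (P (i + 1) - P i) / d i ≤ P (k + 1) / d k := by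
  intro k
  induction k with
  | zero =>
    intro h1 _ _
    rw [Finset.sum_range_one]
    have := h1 0 le_rfl
    gcongr
    linarith
  | succ k ih =>
    intro h1 h2 h3
    rw [Finset.sum_range_succ]
    have h4 := ih (fun i hi => h1 i (by omega)) (fun i hi => h2 i (by omega)) (fun i hi => h3 i (by omega))
    have h5 : P (k + 1) / d k ≤ P (k + 1) / d (k + 1) := by
      have := h1 (k + 1) le_rfl
      exact div_le_div_of_nonneg_left (h3 (k + 1) le_rfl) this (h2 k le_rfl)
    have h6 : P (k + 1) / d (k + 1) + (P (k + 1 + 1) - P (k + 1)) / d (k + 1) = P (k + 1 + 1) / d (k + 1) := by ring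
    linarith

/-- the left branch -/
theorem left {f P p : ℝ → ℝ} {b K : ℝ} (hb : 0 < b) (hf : Continuous f) (hp : Continuous p) (hc : ConcaveOn ℝ (Icc 0 b) f)
    (hlt : ∀ x ∈ Ico 0 b, f x < f b) (hK : 0 ≤ K) (hP : ∀ a, 0 ≤ P a) (hPM : P (f b) = 0)
    (hT : ∀ a a', f 0 ≤ a → a' ≤ f b → a ≤ a' → p a * (a' - a) ≤ P a' - P a + K * (a' - a) ^ 2)
    (hL : ∀ a a', f 0 ≤ a → a' ≤ f b → a ≤ a' → p a' - p a ≤ K * (a' - a)) :
    ∫ x in (0 : ℝ)..b, p (f x) ≤ 0 := by
  have hle : ∀ x ∈ Icc 0 b, f x ≤ f b := by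
    intro x hx
    rcases eq_or_lt_of_le hx.2 with h | h
    · rw [h]
    · exact (hlt x ⟨hx.1, h⟩).le
  have hst : ∀ x y, 0 ≤ x → x < y → y ≤ b → f x < f y := by
    intro x y hx hxy hy
    have hbx : 0 < b - x := by linarith
    have h1 := conc2 hc (x := x) (y := b) ⟨hx, by linarith⟩ ⟨hb.le, le_rfl⟩ (a := (b - y) / (b - x)) (b := (y - x) / (b - x))
      (div_nonneg (by linarith) hbx.le) (div_nonneg (by linarith) hbx.le) (by field_simp; ring)
    have h2 : (b - y) / (b - x) * x + (y - x) / (b - x) * b = y := by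
      field_simp
      ring
    rw [h2] at h1
    have h3 : 0 < (y - x) / (b - x) := div_pos (by linarith) hbx
    have h4 : (b - y) / (b - x) = 1 - (y - x) / (b - x) := by field_simp; ring
    rw [h4] at h1
    have h5 := hlt x ⟨hx, by linarith⟩
    nlinarith
  have hmo : ∀ x y, 0 ≤ x → x ≤ y → y ≤ b → f x ≤ f y := by
    intro x y hx hxy hy
    rcases eq_or_lt_of_le hxy with h | h
    · rw [h]
    · exact (hst x y hx h hy).le
  -- the discrete inequality
  have hN : ∀ k : ℕ, ∫ x in (0 : ℝ)..b, p (f x) ≤ 2 * K * b * (f b - f 0) / ((k + 1 : ℕ) : ℝ) := by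
    intro k
    obtain ⟨N, hNk⟩ : ∃ N : ℕ, N = k + 1 := ⟨_, rfl⟩
    have hN0 : (0 : ℝ) < N := by rw [hNk]; positivity
    rw [← hNk]
    obtain ⟨δ, hδ⟩ : ∃ δ : ℝ, δ = b / N := ⟨_, rfl⟩
    have hδ0 : 0 < δ := by rw [hδ]; positivity
    have hδN : (N : ℝ) * δ = b := by rw [hδ]; field_simp
    obtain ⟨X, hX⟩ : ∃ X : ℕ → ℝ, X = fun i : ℕ => (i : ℝ) * δ := ⟨_, rfl⟩
    have hX0 : X 0 = 0 := by simp [hX]
    have hXN : X N = b := by rw [hX]; exact hδN
    have hXs : ∀ i, X (i + 1) = X i + δ := by intro i; simp only [hX]; push_cast; ring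
    have hXn : ∀ i, 0 ≤ X i := by intro i; simp only [hX]; positivity
    have hXl : ∀ i, i ≤ N → X i ≤ b := by
      intro i hi
      rw [← hδN]
      simp only [hX]
      have : (i : ℝ) ≤ N := by exact_mod_cast hi
      gcongr
    have hcont : Continuous fun x => p (f x) := hp.comp hf
    have h1 := intervalIntegral.sum_integral_adjacent_intervals (f := fun x => p (f x)) (μ := volume) (a := X) (n := N)
      (fun k _ => hcont.intervalIntegrable _ _)
    rw [hX0, hXN] at h1
    rw [← h1]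
    have hD : ∀ i, i < N → 0 < f (X (i + 1)) - f (X i) := by
      intro i hi
      have := hst (X i) (X (i + 1)) (hXn i) (by rw [hXs]; linarith) (hXl _ hi)
      linarith
    have h2 : ∀ i ∈ Finset.range N, ∫ x in X i..X (i + 1), p (f x) ≤
        δ * ((P (f (X (i + 1))) - P (f (X i))) / (f (X (i + 1)) - f (X i))) + 2 * K * δ * (f (X (i + 1)) - f (X i)) := by
      intro i hi
      rw [Finset.mem_range] at hi
      have hD' := hD i hi
      have h0i : f 0 ≤ f (X i) := hmo 0 _ le_rfl (hXn i) (hXl i hi.le)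
      have h3 : ∫ x in X i..X (i + 1), p (f x) ≤ ∫ x in X i..X (i + 1), (p (f (X i)) + K * (f (X (i + 1)) - f (X i))) := by
        refine intervalIntegral.integral_mono_on (by rw [hXs]; linarith) (hcont.intervalIntegrable _ _) (continuous_const.intervalIntegrable _ _) ?_
        intro x hx
        have h4 : f (X i) ≤ f x := hmo _ _ (hXn i) hx.1 (hx.2.trans (hXl _ hi))
        have h5 : f x ≤ f (X (i + 1)) := hmo _ _ ((hXn i).trans hx.1) hx.2 (hXl _ hi)
        have h6 := hL (f (X i)) (f x) h0i (hle x ⟨(hXn i).trans hx.1, hx.2.trans (hXl _ hi)⟩) h4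
        have h7 : K * (f x - f (X i)) ≤ K * (f (X (i + 1)) - f (X i)) := by gcongr
        linarith
      rw [intervalIntegral.integral_const, smul_eq_mul, hXs, add_sub_cancel_left, ← hXs] at h3
      have h8 := hT (f (X i)) (f (X (i + 1))) h0i (hle _ ⟨hXn _, hXl _ hi⟩) (by linarith)
      have h9 : p (f (X i)) ≤ (P (f (X (i + 1))) - P (f (X i))) / (f (X (i + 1)) - f (X i)) + K * (f (X (i + 1)) - f (X i)) := by
        rw [← sub_le_iff_le_add, le_div_iff₀ hD']
        nlinarith
      have h10 := mul_le_mul_of_nonneg_left h9 hδ0.le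
      nlinarith
    refine (Finset.sum_le_sum h2).trans ?_
    rw [Finset.sum_add_distrib, ← Finset.mul_sum, ← Finset.mul_sum, Finset.sum_range_sub (fun i => f (X i)), hX0, hXN]
    have h11 : ∑ i ∈ Finset.range N, (P (f (X (i + 1))) - P (f (X i))) / (f (X (i + 1)) - f (X i)) ≤ 0 := by
      have h12 := sum_parts (P := fun i => P (f (X i))) (d := fun i => f (X (i + 1)) - f (X i)) (hP _) k (fun i hi => hD i (by omega)) ?_
        (fun i _ => hP _)
      · rw [hNk]
        refine h12.trans (le_of_eq ?_)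
        have : f (X (k + 1)) = f b := by rw [← hNk, hXN]
        rw [this, hPM, zero_div]
      · intro i hi
        have h13 := conc2 hc (x := X i) (y := X (i + 1 + 1)) ⟨hXn _, hXl _ (by omega)⟩ ⟨hXn _, hXl _ (by omega)⟩ (a := 1 / 2) (b := 1 / 2)
          (by norm_num) (by norm_num) (by norm_num)
        have h14 : (1 / 2 : ℝ) * X i + (1 / 2 : ℝ) * X (i + 1 + 1) = X (i + 1) := by
          rw [hXs (i + 1), hXs i]
          ring
        rw [h14] at h13
        linarith
    have h15 : δ * ∑ i ∈ Finset.range N, (P (f (X (i + 1))) - P (f (X i))) / (f (X (i + 1)) - f (X i)) ≤ 0 :=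
      mul_nonpos_of_nonneg_of_nonpos hδ0.le h11
    have h16 : 2 * K * δ * (f b - f 0) = 2 * K * b * (f b - f 0) / N := by
      rw [hδ]
      ring
    linarith
  by_contra hcon
  push Not at hcon
  obtain ⟨n, hn⟩ := exists_nat_gt (2 * K * b * (f b - f 0) / ∫ x in (0 : ℝ)..b, p (f x))
  have h1 := hN n
  rw [div_lt_iff₀ hcon] at hn
  rw [le_div_iff₀ (by positivity)] at h1
  push_cast at h1
  nlinarith

theorem cosh_tangent (r s : ℝ) : cosh r + sinh r * (s - r) ≤ cosh s := by
  have h1 : exp r * (1 + (s - r)) ≤ exp s := by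
    have := add_one_le_exp (s - r)
    calc exp r * (1 + (s - r)) ≤ exp r * exp (s - r) := by gcongr; linarith
      _ = exp s := by rw [← exp_add]; congr 1; ring
  have h2 : exp (-r) * (1 - (s - r)) ≤ exp (-s) := by
    have := add_one_le_exp (-(s - r))
    calc exp (-r) * (1 - (s - r)) ≤ exp (-r) * exp (-(s - r)) := by gcongr; linarith
      _ = exp (-s) := by rw [← exp_add]; congr 1; ring
  rw [cosh_eq, cosh_eq, sinh_eq]
  linarith

theorem sinh_sub_le {r s L : ℝ} (hrs : r ≤ s) (hr : -L ≤ r) (hs : s ≤ L) : sinh s - sinh r ≤ exp L * (s - r) := by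
  have h1 : exp s * (1 + (r - s)) ≤ exp r := by
    have := add_one_le_exp (r - s)
    calc exp s * (1 + (r - s)) ≤ exp s * exp (r - s) := by gcongr; linarith
      _ = exp r := by rw [← exp_add]; congr 1; ring
  have h2 : exp (-r) * (1 - (s - r)) ≤ exp (-s) := by
    have := add_one_le_exp (-(s - r))
    calc exp (-r) * (1 - (s - r)) ≤ exp (-r) * exp (-(s - r)) := by gcongr; linarith
      _ = exp (-s) := by rw [← exp_add]; congr 1; ring
  have h3 : exp s * (s - r) ≤ exp L * (s - r) := mul_le_mul_of_nonneg_right (exp_le_exp.2 hs) (by linarith)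
  have h4 : exp (-r) * (s - r) ≤ exp L * (s - r) := mul_le_mul_of_nonneg_right (exp_le_exp.2 (by linarith)) (by linarith)
  rw [sinh_eq, sinh_eq]
  linarith

theorem sinh_chord {t T : ℝ} (ht : 0 ≤ t) (hT : 0 < T) (h : t ≤ T) : T * sinh t ≤ t * sinh T := by
  have hcv : ConvexOn ℝ (Ici (0 : ℝ)) sinh := by
    refine MonotoneOn.convexOn_of_deriv (convex_Ici 0) continuous_sinh.continuousOn differentiable_sinh.differentiableOn ?_
    rw [interior_Ici]
    intro x hx y hy hxy
    rw [Real.deriv_sinh]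
    rw [cosh_le_cosh, abs_of_pos hx, abs_of_pos hy]
    exact hxy
  have h1 := conv2 hcv (x := 0) (y := T) self_mem_Ici hT.le (a := 1 - t / T) (b := t / T)
    (by rw [sub_nonneg, div_le_one hT]; exact h) (by positivity) (by ring)
  simp only [mul_zero, zero_add, sinh_zero] at h1
  rw [div_mul_cancel₀ _ hT.ne'] at h1
  calc T * sinh t ≤ T * (t / T * sinh T) := by gcongr
    _ = t * sinh T := by field_simp

theorem phi_nonneg {T : ℝ} (hT : 0 < T) (t : ℝ) : 0 ≤ cosh t - cosh T - sinh T / (2 * T) * (t ^ 2 - T ^ 2) := by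
  have hmain : ∀ t : ℝ, 0 ≤ t → 0 ≤ cosh t - cosh T - sinh T / (2 * T) * (t ^ 2 - T ^ 2) := by
    intro t ht
    obtain ⟨k, hk⟩ : ∃ k : ℝ → ℝ, k = fun t => cosh t - cosh T - sinh T / (2 * T) * (t ^ 2 - T ^ 2) := ⟨_, rfl⟩
    have hkd : ∀ t, HasDerivAt k (sinh t - t * sinh T / T) t := by
      intro t
      rw [hk]
      have h1 := ((hasDerivAt_cosh t).sub_const (cosh T)).sub (((hasDerivAt_pow 2 t).sub_const (T ^ 2)).const_mul (sinh T / (2 * T)))
      refine h1.congr_deriv ?_
      field_simp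
      simp
      ring
    have hkT : k T = 0 := by rw [hk]; simp
    have hkc : Continuous k := continuous_iff_continuousAt.2 fun t => (hkd t).continuousAt
    rcases le_total t T with h | h
    · have h1 : AntitoneOn k (Icc 0 T) := by
        refine antitoneOn_of_deriv_nonpos (convex_Icc 0 T) hkc.continuousOn (fun x _ => (hkd x).differentiableAt.differentiableWithinAt) ?_
        intro x hx
        rw [interior_Icc] at hx
        rw [(hkd x).deriv, sub_nonpos, le_div_iff₀ hT, mul_comm]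
        exact sinh_chord hx.1.le hT hx.2.le
      have h2 := h1 ⟨ht, h⟩ ⟨hT.le, le_rfl⟩ h
      rw [hkT, hk] at h2
      exact h2
    · have h1 : MonotoneOn k (Ici T) := by
        refine monotoneOn_of_deriv_nonneg (convex_Ici T) hkc.continuousOn (fun x _ => (hkd x).differentiableAt.differentiableWithinAt) ?_
        intro x hx
        rw [interior_Ici] at hx
        have hx' : T < x := hx
        rw [(hkd x).deriv, sub_nonneg, div_le_iff₀ hT, mul_comm (sinh x)]
        have := sinh_chord hT.le (hT.trans hx') hx'.le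
        linarith
      have h2 := h1 self_mem_Ici h h
      rw [hkT, hk] at h2
      exact h2
  have h := hmain |t| (abs_nonneg t)
  rwa [cosh_abs, sq_abs] at h

/-- the integral of `sinh (u f)` for a strongly concave function with mean zero -/
theorem sinh_le {f : ℝ → ℝ} (hf : Continuous f) (hB : ∀ x, |f x| ≤ 1) {κ : ℝ} (hκ : 0 < κ)
    (hs : ∀ x ∈ Icc (0 : ℝ) 1, ∀ y ∈ Icc (0 : ℝ) 1, ∀ a b : ℝ, 0 ≤ a → 0 ≤ b → a + b = 1 →
      a * f x + b * f y + κ * (a * b * (x - y) ^ 2) ≤ f (a * x + b * y))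
    (hm : ∫ x in (0 : ℝ)..1, f x = 0) {u : ℝ} (hu : 0 < u) : ∫ x in (0 : ℝ)..1, sinh (u * f x) ≤ 0 := by
  obtain ⟨z, hz, hzm⟩ := isCompact_Icc.exists_isMaxOn (nonempty_Icc.2 (zero_le_one' ℝ)) hf.continuousOn
  have hzm' : ∀ x ∈ Icc (0 : ℝ) 1, f x ≤ f z := fun x hx => hzm hx
  have hlt : ∀ x ∈ Icc (0 : ℝ) 1, x ≠ z → f x < f z := by
    intro x hx hxz
    have h1 := hs x hx z hz (1 / 2) (1 / 2) (by norm_num) (by norm_num) (by norm_num)
    have h2 := hzm' _ ((convex_Icc (0 : ℝ) 1) hx hz (by norm_num : (0 : ℝ) ≤ 1 / 2) (by norm_num : (0 : ℝ) ≤ 1 / 2) (by norm_num))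
    simp only [smul_eq_mul] at h2
    have h3 : 0 < κ * (1 / 2 * (1 / 2) * (x - z) ^ 2) := by
      have : 0 < (x - z) ^ 2 := by
        have : x - z ≠ 0 := sub_ne_zero.2 hxz
        positivity
      positivity
    linarith
  rcases le_or_gt (f z) 0 with hM | hM
  · have h1 : ∫ x in (0 : ℝ)..1, sinh (u * f x) ≤ ∫ x in (0 : ℝ)..1, (0 : ℝ) := by
      refine intervalIntegral.integral_mono_on zero_le_one ((by fun_prop : Continuous fun x => sinh (u * f x)).intervalIntegrable _ _)
        (continuous_const.intervalIntegrable _ _) fun x hx => ?_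
      rw [sinh_nonpos_iff]
      exact mul_nonpos_of_nonneg_of_nonpos hu.le ((hzm' x hx).trans hM)
    simpa using h1
  obtain ⟨M, hMd⟩ : ∃ M : ℝ, M = f z := ⟨_, rfl⟩
  rw [← hMd] at hM
  obtain ⟨c, hc⟩ : ∃ c : ℝ, c = u * sinh (u * M) / (2 * M) := ⟨_, rfl⟩
  have hsM : 0 < sinh (u * M) := sinh_pos_iff.2 (by positivity)
  have hc0 : 0 < c := by rw [hc]; positivity
  obtain ⟨P, hPd⟩ : ∃ P : ℝ → ℝ, P = fun a => cosh (u * a) - cosh (u * M) - c * (a ^ 2 - M ^ 2) := ⟨_, rfl⟩
  obtain ⟨p, hpd⟩ : ∃ p : ℝ → ℝ, p = fun a => u * sinh (u * a) - 2 * c * a := ⟨_, rfl⟩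
  have hp : Continuous p := by rw [hpd]; fun_prop
  have hP : ∀ a, 0 ≤ P a := by
    intro a
    have h1 := phi_nonneg (T := u * M) (by positivity) (u * a)
    have h2 : sinh (u * M) / (2 * (u * M)) * ((u * a) ^ 2 - (u * M) ^ 2) = c * (a ^ 2 - M ^ 2) := by
      rw [hc]
      field_simp
    rw [h2] at h1
    rw [hPd]
    exact h1
  have hPM : P M = 0 := by rw [hPd]; simp
  obtain ⟨K, hKd⟩ : ∃ K : ℝ, K = c + u ^ 2 * exp u := ⟨_, rfl⟩
  have hK : 0 ≤ K := by rw [hKd]; positivity
  have hT : ∀ a a' : ℝ, p a * (a' - a) ≤ P a' - P a + K * (a' - a) ^ 2 := by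
    intro a a'
    have h1 := cosh_tangent (u * a) (u * a')
    have h2 : 0 ≤ u ^ 2 * exp u * (a' - a) ^ 2 := by positivity
    rw [hpd, hPd, hKd]
    simp only
    nlinarith
  have hL : ∀ a a' : ℝ, -1 ≤ a → a' ≤ 1 → a ≤ a' → p a' - p a ≤ K * (a' - a) := by
    intro a a' h1 h2 h3
    have h4 := sinh_sub_le (r := u * a) (s := u * a') (L := u) (by gcongr) (by nlinarith) (by nlinarith)
    have h5 := mul_le_mul_of_nonneg_left h4 hu.le
    have h6 : 0 ≤ c * (a' - a) := mul_nonneg hc0.le (by linarith)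
    rw [hpd, hKd]
    simp only
    nlinarith
  have hcv : ConcaveOn ℝ (Icc (0 : ℝ) 1) f := by
    refine ⟨convex_Icc 0 1, fun x hx y hy a b ha hb hab => ?_⟩
    have h1 := hs x hx y hy a b ha hb hab
    have h2 : 0 ≤ κ * (a * b * (x - y) ^ 2) := by positivity
    simp only [smul_eq_mul]
    linarith
  -- the left branch
  have hl : ∫ x in (0 : ℝ)..z, p (f x) ≤ 0 := by
    rcases eq_or_lt_of_le hz.1 with h | h
    · rw [← h, intervalIntegral.integral_same]
    · refine left h hf hp (hcv.subset (Icc_subset_Icc le_rfl hz.2) (convex_Icc 0 z)) (fun x hx => hlt x ⟨hx.1, hx.2.le.trans hz.2⟩ hx.2.ne) hK hP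
        (by rw [← hMd]; exact hPM) (fun a a' _ _ _ => hT a a') fun a a' h1 h2 h3 => hL a a' ?_ ?_ h3
      · exact (abs_le.1 (hB 0)).1.trans h1
      · exact h2.trans (abs_le.1 (hB z)).2
  -- the right branch
  have hr : ∫ x in z..(1 : ℝ), p (f x) ≤ 0 := by
    have e1 : ∫ x in (0 : ℝ)..(1 - z), p (f (1 - x)) = ∫ x in z..(1 : ℝ), p (f x) := by
      rw [intervalIntegral.integral_comp_sub_left (fun x => p (f x)) 1]
      simp
    rw [← e1]
    rcases eq_or_lt_of_le hz.2 with h | h
    · rw [h, sub_self, intervalIntegral.integral_same]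
    · have h1z : 0 < 1 - z := by linarith
      refine left (f := fun x => f (1 - x)) h1z (by fun_prop) hp ?_ (fun x hx => ?_) hK hP
        (by simp only [sub_sub_cancel]; rw [← hMd]; exact hPM) (fun a a' _ _ _ => hT a a') fun a a' h1 h2 h3 => hL a a' ?_ ?_ h3
      · refine ⟨convex_Icc _ _, fun x hx y hy a b ha hb hab => ?_⟩
        have h1 := conc2 hcv (x := 1 - x) (y := 1 - y) ⟨by linarith [hx.2, hz.1], by linarith [hx.1]⟩ ⟨by linarith [hy.2, hz.1], by linarith [hy.1]⟩ ha hb hab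
        have h2 : a * (1 - x) + b * (1 - y) = 1 - (a * x + b * y) := by
          linear_combination hab
        rw [h2] at h1
        exact h1
      · simp only [sub_sub_cancel]
        exact hlt (1 - x) ⟨by linarith [hx.2, hz.1], by linarith [hx.1]⟩ (by intro h2; linarith [hx.2])
      · exact (abs_le.1 (hB _)).1.trans h1
      · exact h2.trans (abs_le.1 (hB _)).2
  have hint : ∀ α β : ℝ, IntervalIntegrable (fun x => p (f x)) volume α β := fun α β => (hp.comp hf).intervalIntegrable α β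
  have htot : ∫ x in (0 : ℝ)..1, p (f x) ≤ 0 := by
    rw [← intervalIntegral.integral_add_adjacent_intervals (hint 0 z) (hint z 1)]
    linarith
  have hsplit : ∫ x in (0 : ℝ)..1, p (f x) = u * ∫ x in (0 : ℝ)..1, sinh (u * f x) := by
    rw [hpd]
    simp only
    rw [intervalIntegral.integral_sub ((by fun_prop : Continuous fun x => u * sinh (u * f x)).intervalIntegrable _ _)
      ((by fun_prop : Continuous fun x => 2 * c * f x).intervalIntegrable _ _), intervalIntegral.integral_const_mul,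
      intervalIntegral.integral_const_mul, hm, mul_zero, sub_zero]
  rw [hsplit] at htot
  by_contra hcon
  push Not at hcon
  have := mul_pos hu hcon
  linarith

end Pool.Agent.Helper27.AK
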