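import Pool.Agent.Helper27.AK.Lim
import Pool.Agent.Helper27.AK.Sinh

/-!
# AK (MP_fb29e9_nt, AlmostEveryOval v7): the constants of the negative errors are larger, `Jc 1 < Jc (-1)`
-/

open MeasureTheory Real Set Filter Topology

set_option autoImplicit false

namespace Pool.Agent.Helper27.AK

open Pool.Agent.Helper93.EX (fI fI_cont34 fI_int34 fI_abs34 La Jc Lphi_cont34 Lphi_one34 Lphi_two34 rad_int34)

theorem exp_int_pos (s : ℝ) : 0 < ∫ x in (0 : ℝ)..1, exp (s * fI x) := by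
  have hc : Continuous fun x => exp (s * fI x) := continuous_exp.comp (continuous_const.mul fI_cont34)
  exact intervalIntegral.intervalIntegral_pos_of_pos (hc.intervalIntegrable _ _) (fun x => exp_pos _) zero_lt_one

theorem La_le {s : ℝ} (hs : 0 < s) : La fI s ≤ La fI (-s) := by
  have h1 := sinh_le fI_cont34 fI_abs34 (κ := exp (-1) / 8) (by positivity) (fun x hx y hy a b ha hb hab => fI_strong hx hy ha hb hab) fI_int34 hs
  have hc : ∀ s : ℝ, Continuous fun x => exp (s * fI x) := fun s => continuous_exp.comp (continuous_const.mul fI_cont34)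
  have h2 : ∫ x in (0 : ℝ)..1, sinh (s * fI x) = ((∫ x in (0 : ℝ)..1, exp (s * fI x)) - ∫ x in (0 : ℝ)..1, exp (-s * fI x)) / 2 := by
    rw [← intervalIntegral.integral_sub ((hc s).intervalIntegrable _ _) ((hc (-s)).intervalIntegrable _ _), ← intervalIntegral.integral_div]
    refine intervalIntegral.integral_congr fun x _ => ?_
    rw [sinh_eq, neg_mul]
  rw [h2] at h1
  unfold La
  exact log_le_log (exp_int_pos s) (by linarith)

theorem fI_one : fI 1 = fI 0 := by
  unfold fI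
  congr 1
  refine tsum_congr fun j => ?_
  congr 1
  rw [show 2 * π * (((j + 1 : ℕ) : ℝ) * 1) - 3 * π / 4 = 2 * π * (((j + 1 : ℕ) : ℝ) * 0) - 3 * π / 4 + ((j + 1 : ℕ) : ℝ) * (2 * π) by ring]
  exact cos_add_nat_mul_two_pi _ _

theorem quad_int (A B k : ℝ) : ∫ s in (0 : ℝ)..1, ((1 - s) * A + s * B + k * ((1 - s) * s)) = (A + B) / 2 + k / 6 := by
  have h : ∀ s ∈ uIcc (0 : ℝ) 1, HasDerivAt (fun s : ℝ => (s - s ^ 2 / 2) * A + s ^ 2 / 2 * B + k * (s ^ 2 / 2 - s ^ 3 / 3))
      ((1 - s) * A + s * B + k * ((1 - s) * s)) s := by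
    intro s _
    have h1 := hasDerivAt_id s
    have h2 := hasDerivAt_pow 2 s
    have h3 := hasDerivAt_pow 3 s
    have h4 := (((h1.sub (h2.div_const 2)).mul_const A).add ((h2.div_const 2).mul_const B)).add (((h2.div_const 2).sub (h3.div_const 3)).const_mul k)
    refine h4.congr_deriv ?_
    rw [show (2 - 1 : ℕ) = 1 from rfl, show (3 - 1 : ℕ) = 2 from rfl, pow_one]
    push_cast
    ring
  rw [intervalIntegral.integral_eq_sub_of_hasDerivAt h ((by fun_prop : Continuous fun s : ℝ => (1 - s) * A + s * B + k * ((1 - s) * s)).intervalIntegrable _ _)]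
  ring

/-- the maximum of the wave is smaller than minus its minimum -/
theorem max_lt : ∃ M : ℝ, M < -fI 0 ∧ ∀ x ∈ Icc (0 : ℝ) 1, fI x ≤ M := by
  obtain ⟨z, hz, hzm⟩ := isCompact_Icc.exists_isMaxOn (nonempty_Icc.2 (zero_le_one' ℝ)) fI_cont34.continuousOn
  refine ⟨fI z, ?_, fun x hx => hzm hx⟩
  have hc := fI_cont34
  have h1 : z * ∫ s in (0 : ℝ)..1, fI (z * s) = ∫ x in (0 : ℝ)..z, fI x := by
    rw [intervalIntegral.mul_integral_comp_mul_left]
    simp
  have h2 : (1 - z) * ∫ s in (0 : ℝ)..1, fI (1 - (1 - z) * s) = ∫ x in z..(1 : ℝ), fI x := by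
    rw [intervalIntegral.mul_integral_comp_sub_mul]
    simp
  have h3 : (fI 0 + fI z) / 2 + exp (-1) / 8 * z ^ 2 / 6 ≤ ∫ s in (0 : ℝ)..1, fI (z * s) := by
    rw [← quad_int]
    refine intervalIntegral.integral_mono_on zero_le_one ((by fun_prop : Continuous fun s : ℝ => (1 - s) * fI 0 + s * fI z +
      exp (-1) / 8 * z ^ 2 * ((1 - s) * s)).intervalIntegrable _ _) ((hc.comp (by fun_prop)).intervalIntegrable _ _) fun s hs => ?_
    have h4 := fI_strong (x := 0) (y := z) (a := 1 - s) (b := s) ⟨le_rfl, zero_le_one⟩ hz (by linarith [hs.2]) hs.1 (by ring)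
    rw [mul_zero, zero_add, mul_comm s z] at h4
    linarith
  have h5 : (fI 0 + fI z) / 2 + exp (-1) / 8 * (1 - z) ^ 2 / 6 ≤ ∫ s in (0 : ℝ)..1, fI (1 - (1 - z) * s) := by
    rw [← quad_int]
    refine intervalIntegral.integral_mono_on zero_le_one ((by fun_prop : Continuous fun s : ℝ => (1 - s) * fI 0 + s * fI z +
      exp (-1) / 8 * (1 - z) ^ 2 * ((1 - s) * s)).intervalIntegrable _ _) ((hc.comp (by fun_prop)).intervalIntegrable _ _) fun s hs => ?_
    have h4 := fI_strong (x := 1) (y := z) (a := 1 - s) (b := s) ⟨zero_le_one, le_rfl⟩ hz (by linarith [hs.2]) hs.1 (by ring)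
    rw [fI_one, show (1 - s) * 1 + s * z = 1 - (1 - z) * s by ring] at h4
    linarith
  have h6 : (∫ x in (0 : ℝ)..z, fI x) + ∫ x in z..(1 : ℝ), fI x = 0 := by
    rw [intervalIntegral.integral_add_adjacent_intervals (hc.intervalIntegrable _ _) (hc.intervalIntegrable _ _), fI_int34]
  rw [← h1, ← h2] at h6
  have h7 := mul_le_mul_of_nonneg_left h3 hz.1
  have h8 := mul_le_mul_of_nonneg_left h5 (by linarith [hz.2] : 0 ≤ 1 - z)
  have h9 : 0 < exp (-1) / 8 / 6 * (z ^ 3 + (1 - z) ^ 3) := by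
    have : 0 < z ^ 3 + (1 - z) ^ 3 := by nlinarith [sq_nonneg (2 * z - 1)]
    positivity
  nlinarith

theorem La_lt : ∃ s₀ : ℝ, 0 < s₀ ∧ ∀ s : ℝ, s₀ < s → La fI s < La fI (-s) := by
  obtain ⟨M, hM, hle⟩ := max_lt
  have hc := fI_cont34
  have hm : fI 0 < -((M + -fI 0) / 2) := by linarith
  obtain ⟨δ, hδ, hδ1, hd⟩ : ∃ δ : ℝ, 0 < δ ∧ δ < 1 ∧ ∀ x ∈ Icc (0 : ℝ) δ, fI x ≤ -((M + -fI 0) / 2) := by
    obtain ⟨ε, hε, h1⟩ := Metric.eventually_nhds_iff.1 (hc.continuousAt.eventually_lt (continuousAt_const (y := -((M + -fI 0) / 2))) hm)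
    refine ⟨min (ε / 2) (1 / 2), by positivity, (min_le_right _ _).trans_lt (by norm_num), fun x hx => (h1 ?_).le⟩
    rw [Real.dist_eq, sub_zero, abs_of_nonneg hx.1]
    have := hx.2.trans (min_le_left _ _)
    linarith
  have hgap : 0 < -fI 0 - M := by linarith
  have hlog : 0 < -log δ := by
    have := log_neg hδ hδ1
    linarith
  refine ⟨2 * (-log δ) / (-fI 0 - M), by positivity, fun s hs => ?_⟩
  rw [div_lt_iff₀ hgap] at hs
  have hs0 : 0 < s := by
    by_contra h
    have : s * (-fI 0 - M) ≤ 0 := mul_nonpos_of_nonpos_of_nonneg (not_lt.1 h) hgap.le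
    linarith
  have hce : ∀ s : ℝ, Continuous fun x => exp (s * fI x) := fun s => continuous_exp.comp (continuous_const.mul hc)
  have h1 : ∫ x in (0 : ℝ)..1, exp (s * fI x) ≤ exp (s * M) := by
    have h2 : ∫ x in (0 : ℝ)..1, exp (s * fI x) ≤ ∫ x in (0 : ℝ)..1, exp (s * M) := by
      refine intervalIntegral.integral_mono_on zero_le_one ((hce s).intervalIntegrable _ _) (continuous_const.intervalIntegrable _ _) fun x hx => ?_
      have := hle x hx
      gcongr
    simpa using h2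
  have h3 : δ * exp (s * ((M + -fI 0) / 2)) ≤ ∫ x in (0 : ℝ)..1, exp (-s * fI x) := by
    have h4 : ∫ x in (0 : ℝ)..δ, exp (s * ((M + -fI 0) / 2)) ≤ ∫ x in (0 : ℝ)..δ, exp (-s * fI x) := by
      refine intervalIntegral.integral_mono_on hδ.le (continuous_const.intervalIntegrable _ _) ((hce (-s)).intervalIntegrable _ _) fun x hx => ?_
      have := hd x hx
      refine exp_le_exp.2 ?_
      nlinarith
    rw [intervalIntegral.integral_const, sub_zero, smul_eq_mul] at h4
    have h5 : ∫ x in (0 : ℝ)..1, exp (-s * fI x) = (∫ x in (0 : ℝ)..δ, exp (-s * fI x)) + ∫ x in δ..(1 : ℝ), exp (-s * fI x) :=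
      (intervalIntegral.integral_add_adjacent_intervals ((hce (-s)).intervalIntegrable _ _) ((hce (-s)).intervalIntegrable _ _)).symm
    have h6 : 0 ≤ ∫ x in δ..(1 : ℝ), exp (-s * fI x) := intervalIntegral.integral_nonneg hδ1.le fun x _ => (exp_pos _).le
    linarith
  have h7 : exp (s * M) < δ * exp (s * ((M + -fI 0) / 2)) := by
    rw [← exp_log hδ, ← exp_add]
    refine exp_lt_exp.2 ?_
    nlinarith
  unfold La
  exact log_lt_log (exp_int_pos s) (by linarith)

/-- the constants -/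
theorem Jc_lt : Jc 1 < Jc (-1) := by
  obtain ⟨s₀, hs₀, hlt⟩ := La_lt
  have hi1 := rad_int34 (Lphi_cont34 1) (Lphi_one34 (Or.inl rfl)) (Lphi_two34 (Or.inl rfl))
  have hi2 := rad_int34 (Lphi_cont34 (-1)) (Lphi_one34 (Or.inr rfl)) (Lphi_two34 (Or.inr rfl))
  have hpos : 0 < ∫ r in Ioi (0 : ℝ), (La fI (-1 * r ^ (-(3 / 2) : ℝ)) * r - La fI (1 * r ^ (-(3 / 2) : ℝ)) * r) := by
    have hsub : IntegrableOn (fun r : ℝ => La fI (-1 * r ^ (-(3 / 2) : ℝ)) * r - La fI (1 * r ^ (-(3 / 2) : ℝ)) * r) (Ioi 0) := hi2.sub hi1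
    rw [setIntegral_pos_iff_support_of_nonneg_ae ?_ hsub]
    · have h1 : Ioo (0 : ℝ) (s₀ ^ (-(2 / 3) : ℝ)) ⊆
          Function.support (fun r : ℝ => La fI (-1 * r ^ (-(3 / 2) : ℝ)) * r - La fI (1 * r ^ (-(3 / 2) : ℝ)) * r) ∩ Ioi 0 := by
        intro r hr
        refine ⟨ne_of_gt ?_, hr.1⟩
        have h2 : s₀ < r ^ (-(3 / 2) : ℝ) := by
          have h3 := rpow_lt_rpow_of_neg hr.1 hr.2 (by norm_num : (-(3 / 2) : ℝ) < 0)
          rwa [← rpow_mul hs₀.le, show (-(2 / 3) : ℝ) * (-(3 / 2)) = 1 by norm_num, rpow_one] at h3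
        have h4 := hlt _ h2
        beta_reduce
        rw [neg_one_mul, one_mul]
        have h5 := mul_lt_mul_of_pos_right h4 hr.1
        linarith
      refine lt_of_lt_of_le ?_ (measure_mono h1)
      rw [Real.volume_Ioo, sub_zero, ENNReal.ofReal_pos]
      positivity
    · refine (ae_restrict_iff' measurableSet_Ioi).2 (ae_of_all _ fun r hr => ?_)
      have hr0 : (0 : ℝ) < r := hr
      have h2 := La_le (s := r ^ (-(3 / 2) : ℝ)) (by positivity)
      simp only [Pi.zero_apply]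
      rw [neg_one_mul, one_mul]
      have h3 := mul_le_mul_of_nonneg_right h2 hr0.le
      linarith
  rw [integral_sub hi2 hi1] at hpos
  unfold Jc
  linarith

end Pool.Agent.Helper27.AK
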